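import Mathlib
import Pool.Agent.Run7.h4.VS.FDefs2
import Pool.Agent.Run7.h182.QS.Fin
import Pool.Agent.Run7.h4.DC.Fin

/-!
# The string tensions of `SU(N)` lattice gauge theory on `R^2 x T^2` with 't Hooft flux

Four dimensional `SU(N)` lattice gauge theory with the Wilson action on the periodic lattice with
sides `2p, 2q, l, l`, with a 't Hooft flux `k` coprime to `N` through the torus of side `l` in the
directions `2, 3`; the side `l ≥ 1` is arbitrary. `Zf` is the partition function with a
further flux `j` through the torus with sides `2p, 2q` in the directions `0, 1`, and `Ze` is the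
partition function in the sector of the electric flux `c` (the cosine transform of `Zf` in `j`).

The action `S l j` of the vortex with the flux `j` is the limit of the minimal Wilson action with
the fluxes `k` and `j` as the first two sides tend to infinity. It lies between two positive constants
which depend on `N` and `k` only, uniformly in the size `l` of the compact plane, and does not decrease
when `l` is multiplied by an integer.

Every electric flux `c` has a string tension `σ l c β`: for all `0 < θ < 1` and `ε > 0` there are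
`C`, `r` such that for ALL `l ≥ 1`, `β ≥ C l ^ r` and all sides at least `C l ^ r` the free energy of
the electric flux is `- log (Ze c / Ze 0) = σ l c β * area`, with exponentially small errors at the
rate `2 θ arsinh (sin (π / (l N)))`, and the partition functions with a flux `j` obey the
law of a dilute gas of vortices at all scales; if `N` does not divide `c` then `σ l c β > 0` and
`- log (σ l c β) / β` differs by at most `ε` from the minimum `T` of the actions `S l j` of the
vortices which the flux `c` sees. So confinement and its exact exponent hold uniformly in the lattice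
spacing `1 / l`, as long as `β ≥ C l ^ r`.

For every fixed `l`: `σ l c β` is the sum over `j` of `w l j β * (1 - cos (2 π c j / N))`, where
`w l j β` is the density of the vortices with the flux `j`; the density is at most
`exp (- β (S l j - ε))`, and at least `exp (- β (S l j + ε))` if the vortex is irreducible (its action
is smaller than the sum of the actions of the parts into which its flux can be decomposed). If the
minimal action among all vortices is attained by one flux `i` only (up to the sign), then the ratios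
of the string tensions converge to those of `1 - cos (2 π c i / N) = 2 sin (π c i / N) ^ 2`.
-/

open MeasureTheory Matrix Filter Topology

namespace Pool.Agent.Results.MP_7f377f_mp.ExactStringTension

open Run7.h4.YM Run7.h4.VS

theorem result (N k : ℕ) [NeZero N] (hN : 2 ≤ N) (hk : Nat.Coprime k N)
    [MeasurableSpace (SU N)] [BorelSpace (SU N)] (μ : Measure (SU N)) [IsProbabilityMeasure μ]
    [μ.IsHaarMeasure] :
    ∃ (a b : ℝ) (S : ℕ → ℕ → ℝ) (σ w : ℕ → ℕ → ℝ → ℝ), 0 < a ∧
      (∀ l j : ℕ, 1 ≤ l → ¬ N ∣ j → a ≤ S l j ∧ S l j ≤ b) ∧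
      (∀ l r j : ℕ, 1 ≤ l → 1 ≤ r → S l j ≤ S (r * l) j) ∧
      (∀ (l : ℕ) [NeZero l] (j : ℕ),
        Tendsto (fun p : ℕ × ℕ => minAction N (p.1 + 1) (p.2 + 1) l k j) atTop (𝓝 (S l j))) ∧
      (∀ θ ε : ℝ, 0 < θ → θ < 1 → 0 < ε → ∃ C r : ℕ, ∀ (l : ℕ) [NeZero l] (β : ℝ),
        C * (l : ℝ) ^ r ≤ β →
        (∀ (p q : ℕ) [NeZero p] [NeZero q], C * l ^ r ≤ p → C * l ^ r ≤ q →
          (∀ c : ℕ, 0 < Ze (2 * p) (2 * q) l μ k c β ∧
            |Real.log (Ze (2 * p) (2 * q) l μ k c β / Ze (2 * p) (2 * q) l μ k 0 β) +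
              σ l c β * ((2 * p) * (2 * q))| ≤
                (p + q) * Real.exp
                  (-(2 * θ * Real.arsinh (Real.sin (Real.pi / (l * N))) * (2 * min p q)))) ∧
          ∀ j : ℕ, |Zf (2 * p) (2 * q) l μ k j β / Zf (2 * p) (2 * q) l μ k 0 β -
            (∑ c ∈ Finset.range N, Real.cos (2 * Real.pi * (c * j) / N) *
              Real.exp (-(σ l c β * ((2 * p) * (2 * q))))) /
            ∑ c ∈ Finset.range N, Real.exp (-(σ l c β * ((2 * p) * (2 * q))))| ≤
              8 * ((p + q) * Real.exp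
                (-(2 * θ * Real.arsinh (Real.sin (Real.pi / (l * N))) * (2 * min p q))))) ∧
        ∀ c : ℕ, ¬ N ∣ c → 0 < σ l c β ∧
          ∃ T : ℝ, IsLeast {s | ∃ j : ℕ, ¬ N ∣ c * j ∧ s = S l j} T ∧
            |-Real.log (σ l c β) / β - T| ≤ ε) ∧
      ∀ (l : ℕ) [NeZero l],
        (∀ᶠ β in atTop, ∀ c : ℕ, σ l c β = ∑ j ∈ Finset.range N,
          w l j β * (1 - Real.cos (2 * Real.pi * (c * j) / N))) ∧
        (∀ j : ℕ, ¬ N ∣ j → ∀ ε : ℝ, 0 < ε →
          (∀ᶠ β in atTop, |w l j β| ≤ Real.exp (-(β * (S l j - ε)))) ∧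
          ((∀ i i' : ℕ, ¬ N ∣ i → ¬ N ∣ i' → i + i' ≡ j [MOD N] → S l j < S l i + S l i') →
            ∀ᶠ β in atTop, Real.exp (-(β * (S l j + ε))) ≤ w l j β)) ∧
        ∀ i : ℕ, ¬ N ∣ i → (∀ j : ℕ, ¬ N ∣ j → ¬ j ≡ i [MOD N] → ¬ N ∣ j + i → S l i < S l j) →
          ∀ c d : ℕ, ¬ N ∣ d * i → Tendsto (fun β => σ l c β / σ l d β) atTop
            (𝓝 ((1 - Real.cos (2 * Real.pi * (c * i) / N)) /
              (1 - Real.cos (2 * Real.pi * (d * i) / N)))) := by
  classical
  letI : MeasurableSpace (Pool.Agent.Run7.h897.ST.S6 N) := borel _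
  haveI : BorelSpace (Pool.Agent.Run7.h897.ST.S6 N) := ⟨rfl⟩
  obtain ⟨S, hlim, ⟨a, b, ha, hab⟩, hall⟩ := Run7.h182.QS.all_l (N := N) k hN hk μ
  have h := fun (l : ℕ) (hl : NeZero l) => Run7.h182.QS.joint4_sig (N := N) l k hN hk μ
  choose S0 w0 hS0 using h
  have hSS : ∀ (l : ℕ) (hl : NeZero l), S0 l hl = S l := fun l hl =>
    funext fun j => tendsto_nhds_unique ((hS0 l hl).1 j) (hlim l j)
  have hIs : Run7.h4.DC.IsLim N k S := fun l hl => hlim l
  refine ⟨a, b, S, fun l c β => if h : NeZero l then Run7.h182.QS.sgm μ l k c β else 0,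
    fun l j β => if h : NeZero l then w0 l h j β else 0, ha, fun l j hl hj => ?_,
    fun l r j hl hr => ?_, fun l _ j => hlim l j, fun θ ε h1 h2 h3 => ?_, fun l hl => ?_⟩
  · have hn : NeZero l := ⟨by omega⟩
    exact ⟨(hab l j).2 hj, (hab l j).1⟩
  · have hn : NeZero l := ⟨by omega⟩
    have hn' : NeZero r := ⟨by omega⟩
    exact Run7.h4.DC.lim_mul hIs l r j
  · obtain ⟨C, r, -, hC⟩ := hall θ ε h1 h2 h3
    refine ⟨C, r, fun l hl β hβ => ?_⟩
    obtain ⟨g1, g2⟩ := hC l β hβ
    simp only [dif_pos hl]
    refine ⟨fun p q _ _ hp hq => ?_, fun c hc => ?_⟩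
    · obtain ⟨g3, g4⟩ := Run7.h182.QS.zlaw μ l k g1 p q hp hq
      have e1 : (2 * (p : ℝ)) * (2 * q) = 4 * (p * q) := by ring
      have e2 : 2 * θ * Real.arsinh (Real.sin (Real.pi / (l * N))) * (2 * ((min p q : ℕ) : ℝ)) =
          2 * (θ * (2 * Real.arsinh (Real.sin (Real.pi / (l * N))))) * ((min p q : ℕ) : ℝ) := by
        ring
      simp only [e1, e2]
      refine ⟨fun c => g3 c, fun j => ?_⟩
      have g5 := g4 j
      rw [mul_assoc 8 ((p : ℝ) + q)] at g5
      exact g5
    · obtain ⟨g3, T, -, hT, g4⟩ := g2 c hc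
      exact ⟨g3, T, hT, g4⟩
  · simp only [dif_pos hl]
    obtain ⟨-, g1, g2, g3⟩ := hS0 l hl
    rw [hSS] at g2 g3
    exact ⟨g1, g2, g3⟩

end Pool.Agent.Results.MP_7f377f_mp.ExactStringTension
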