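import Mathlib
import Pool.Agent.Run7.h630.QW.Main2

/-!
# Four-dimensional lattice Yang-Mills theory with 't Hooft flux: the continuum limit of the local
gauge invariant fields, and its mass

Wilson's lattice gauge theory, gauge group `SU(N)`, `N ≥ 2`, on the four-dimensional lattice
`Z² x (Z/l)²` with the 't Hooft flux `k`, coprime to `N`, through the compact plane. With the
lattice spacing `1 / l` the compact torus has the side one. The local gauge invariant fields
`O_u = (β / 2) tr (F_u^* F_u)`, `F_u = ∑ a < b, u_ab F_ab`, `u` a real two-form (by polarisation: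
all the fields `tr (F_ab^* F_cd)`, for instance the energy-momentum tensor), have a continuum limit
`l → ∞`, uniformly in the inverse couplings `β ≥ l ^ p`: their connected two-point functions at
separated times converge, uniformly on compact sets, to those of the Wick squares of the field
strengths of free electromagnetic fields on `R² x T²` with twisted boundary conditions, one for
each colour `α ∈ (Z/N)²`, `α ≠ 0`. The limits are massive: they decay exponentially, and the exact
rate is `4 π / N`, twice the mass of the lightest particle.

The proof: Wick's theorem for the second and fourth moments of the curvature on finite tori with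
errors which are powers of the volume times `β ^ (-1/4)`, from the Schwinger-Dyson equations of the
vector fields `∑ a D` (`D` the products `P ^ c Q ^ d` of the holonomies of the compact torus) and
Newton's identities for the holonomies; the transfer to the infinite volume (uniform mass gap, from
a Pirogov-Sinai type criterion for the ratios of the partition functions); the explicit lattice
Green function and its limit.

Authors: helper630 (statement, plan, assembly), helper771 (Schwinger-Dyson equations of the
moments), helper863, helper591, helper280 (phases of the holonomies; helper863 also the local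
energies and the transfer to the infinite volume), helper370 (moments on the torus), helper819
(algebra of the point-like fields), helper882 (covariances on the torus), helper885, helper593
(lattice Green function), helper763, helper871, helper281 (its limit), helper624 (bounds of the
limit), helper897, helper4 (library), with the library of MassiveContinuumLimit and TwistedMassGap.
-/

open MeasureTheory Filter Topology
open Run7.h4.YM Run7.h630.WL Run7.h630.QC Run7.h630.QF Run7.h630.QW

namespace Pool.Agent.Results.MP_7f377f_mp.LocalFieldsLimit

/-- **The continuum limit of the local gauge invariant fields of the four-dimensional Yang-Mills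
theory on `R² x T²` with 't Hooft flux.** Let `N ≥ 2`, `k` coprime to `N`, and let `G u v z` be `1 / 2`
times the sum over the colours `α ≠ 0` of the squares of the two-point functions of the components
`u`, `v` of the field strengths of free electromagnetic fields. (1) There is `p` such that for all
large `l` and all `β ≥ l ^ p` Wilson's `SU(N)` theory on `Z² x (Z/l)²` with the flux `k` has a
thermodynamic limit `ν`, and the connected two-point functions of the local fields `O_u`, `O_v`,
multiplied by `l ^ 8`, converge to `G u v` as `l → ∞`, uniformly in `β ≥ l ^ p`, in the bounded real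
two-forms `u`, `v` and in the pairs of points in a box of the side `T l` whose times differ by at
least `δ l`. (2), (3) The limit `G` decays like `exp (- (4 π / N) t)` in the time `t`, and not like
`exp (- (4 π / N + ε) t)`. -/
theorem result (N k : ℕ) (hN : 2 ≤ N) (hk : Nat.Coprime k N) [MeasurableSpace (SU N)]
    [BorelSpace (SU N)] (μ : Measure (SU N)) [IsProbabilityMeasure μ] [μ.IsHaarMeasure] :
    (∃ p : ℕ, (∃ l₀ : ℕ, ∀ (l : ℕ) [NeZero l], l₀ ≤ l → ∀ β : ℝ, (l : ℝ) ^ p ≤ β →
        ∃ ν : Measure (LinkZ l → SU N), IsLimit k μ β ν) ∧
      ∀ δ T B ε : ℝ, 0 < δ → 0 < ε → ∃ l₁ : ℕ, ∀ (l : ℕ) [NeZero l], l₁ ≤ l →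
      ∀ β : ℝ, (l : ℝ) ^ p ≤ β → ∀ ν : Measure (LinkZ l → SU N), IsLimit k μ β ν →
      ∀ u v : Fin 4 → Fin 4 → ℝ, (∀ a b, |u a b| ≤ B) → (∀ a b, |v a b| ≤ B) →
      ∀ x y : SiteZ l, δ * l ≤ x.1 - y.1 →
        |(x.1 : ℝ)| ≤ T * l → |(x.2.1 : ℝ)| ≤ T * l → |(y.1 : ℝ)| ≤ T * l →
        |(y.2.1 : ℝ)| ≤ T * l →
        |(l : ℝ) ^ 8 * (∫ V, localField k β V u x * localField k β V v y ∂ν -
            (∫ V, localField k β V u x ∂ν) * ∫ V, localField k β V v y ∂ν) -
          wickSq N k u v (sep x y)| ≤ ε) ∧
    (∀ δ B : ℝ, 0 < δ → ∃ K : ℝ, ∀ u v : Fin 4 → Fin 4 → ℝ, (∀ a b, |u a b| ≤ B) →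
      (∀ a b, |v a b| ≤ B) → ∀ z : Fin 4 → ℝ, δ ≤ z 0 →
        wickSq N k u v z ≤ K * Real.exp (-(4 * Real.pi / N * z 0))) ∧
    ∃ u : Fin 4 → Fin 4 → ℝ, ∀ ε : ℝ, 0 < ε → ∃ c : ℝ, 0 < c ∧ ∀ t : ℝ, 0 < t →
      c * Real.exp (-((4 * Real.pi / N + ε) * t)) ≤ wickSq N k u u ![t, 0, 0, 0] :=
  main2 N k hN hk μ

end Pool.Agent.Results.MP_7f377f_mp.LocalFieldsLimit
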