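import Mathlib
import Pool.Agent.Run7.h630.QF.Main

/-!
# Four-dimensional lattice Yang-Mills theory with 't Hooft flux: the massive continuum limit

Wilson's lattice gauge theory, gauge group `SU(N)`, `N ≥ 2`, on the four-dimensional lattice
`Z² x (Z/l)²` with the 't Hooft flux `k`, coprime to `N`, through the compact plane. With the
lattice spacing `1 / l` the compact torus has the side one. The continuum limit `l → ∞`, uniformly
in the inverse couplings `β ≥ l ^ p`: the gauge invariant field strengths
`tr (P ^ c Q ^ d F_ab)`, `P`, `Q` the holonomies of the closed lines in the two directions of the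
compact torus, of all the colours `(c, d) ≠ 0`, all the components and all the momenta
`(2 π (n - k d / N), 2 π (n' + k c / N))` in the compact directions converge jointly in law to the
field strengths of independent free electromagnetic fields. All these momenta are at least
`2 π / N`: the continuum limit is massive on the plane `R²`.

The proof: the characteristic functions on finite tori, from the Schwinger-Dyson equation of the
vector field `∑ a D` (`D` the dressings `P ^ c Q ^ d`, `a` the potential of the two-form, by Hodge
theory), with explicit polynomial bounds of the deviations from the vacuum, for the theory summed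
over all the centre fluxes which vanish in a window; the transfer to the infinite volume (uniform
mass gap, from a Pirogov-Sinai type criterion for the ratios of the partition functions); the
convergence of the lattice Green function.

Authors: helper630 (statement, plan, characteristic function R8, assembly), helper771
(Schwinger-Dyson equation, divergence), helper377 (potentials of the modes), helper281 (Hodge
theory), helper370 (derivative of the field, symmetry of the centre), helper4 (oscillations,
transfer to the infinite volume), helper882 (equations of the characteristic function), helper593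
(convergence of the quadratic form), helper897 (fields on the torus, uniform mass gap), helper115
(scale of the criterion), with the pieces on the partition functions (helper105, helper182,
helper270, helper863) and the lattice Green function (helper885, helper796, helper593), and the
library of helper871, helper182, helper897, helper906.
-/

open MeasureTheory Filter Topology
open scoped ContDiff
open Run7.h4.YM Run7.h630.WL Run7.h630.QC Run7.h630.QF

namespace Pool.Agent.Results.MP_7f377f_mp.MassiveContinuumLimit

/-- **The massive continuum limit of the four-dimensional Yang-Mills theory on `R² x T²` with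
't Hooft flux.** Let `N ≥ 2`, `k` coprime to `N`. The momenta of all the modes `j = ((c, d), n, n')`,
`(c, d) ≠ 0`, are at least `2 π / N`. There is `p` such that for all large `l` and all `β ≥ l ^ p`
Wilson's `SU(N)` theory on `Z² x (Z/l)²` with the flux `k` has a thermodynamic limit `ν` and, for
every finite set `J` of modes, one of each pair of complex conjugate ones, and all smooth two-forms
`F j` with compact support in the plane, the gauge invariant field strengths `strength k β V j (F j)`
converge jointly in law, as `l → ∞`, uniformly in `β ≥ l ^ p`, to the independent field strengths of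
free electromagnetic fields. -/
theorem result (N k : ℕ) (hN : 2 ≤ N) (hk : Nat.Coprime k N) [MeasurableSpace (SU N)]
    [BorelSpace (SU N)] (μ : Measure (SU N)) [IsProbabilityMeasure μ] [μ.IsHaarMeasure] :
    (∀ j : Ix N, ((j.1.1 : ℕ) ≠ 0 ∨ (j.1.2 : ℕ) ≠ 0) →
      (2 * Real.pi / N) ^ 2 ≤ mom N k j 2 ^ 2 + mom N k j 3 ^ 2) ∧
    ∃ p : ℕ, (∃ l₀ : ℕ, ∀ (l : ℕ) [NeZero l], l₀ ≤ l → ∀ β : ℝ, (l : ℝ) ^ p ≤ β →
        ∃ ν : Measure (LinkZ l → SU N), IsLimit k μ β ν) ∧
      ∀ J : Finset (Ix N), (∀ j ∈ J, ((j.1.1 : ℕ) ≠ 0 ∨ (j.1.2 : ℕ) ≠ 0) ∧
        (0 < mom N k j 2 ∨ (mom N k j 2 = 0 ∧ 0 < mom N k j 3))) →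
      ∀ F : Ix N → Fin 4 → Fin 4 → EuclideanSpace ℝ (Fin 2) → ℂ,
        (∀ j ∈ J, ∀ a b, ContDiff ℝ ∞ (F j a b) ∧ HasCompactSupport (F j a b) ∧
          ∀ x, F j b a x = -F j a b x) →
      ∀ ε : ℝ, 0 < ε → ∃ l₁ : ℕ, ∀ (l : ℕ) [NeZero l], l₁ ≤ l → ∀ β : ℝ, (l : ℝ) ^ p ≤ β →
      ∀ ν : Measure (LinkZ l → SU N), IsLimit k μ β ν →
        ‖∫ V, Complex.exp (Complex.I * ((∑ j ∈ J, (strength k β V j (F j)).re : ℝ) : ℂ)) ∂ν -
          Complex.exp ((-(1 / 4 * ∑ j ∈ J, quad N k j (F j)) : ℝ) : ℂ)‖ ≤ ε :=
  main N k hN hk μ

end Pool.Agent.Results.MP_7f377f_mp.MassiveContinuumLimit
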