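import Mathlib
import Pool.Agent.Run7.h897.QU.All

/-!
# Four-dimensional lattice Yang-Mills theory on `Z² x (Z/l)²` with 't Hooft flux: the value of the
mass gap, uniformly in the lattice spacing

Wilson's lattice gauge theory, gauge group `SU(N)`, `N ≥ 2`, on the four-dimensional lattice
`Z² x (Z/l)²` with the 't Hooft flux `k`, coprime to `N`, through the compact plane. With the
lattice spacing `1 / l` the compact torus has the side one. For every `ε > 0`, all `l ≥ 1` and all
inverse couplings `β ≥ C l ^ p` the theory has a thermodynamic limit (along all even tori), and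
its mass gap differs from `2 arsinh (sin (π / (l N))) ~ 2 π / (l N)` by at most `ε / l` (`C`, `p`
depend on `ε`, `N`, `k` only): in physical units the mass gap of the theory is `2 π / N` up to
`ε + o(1)`, as `l → ∞`.

The lower bound: Pirogov-Sinai type criterion (chessboard estimates) for the ratios of the
partition functions, which are computed up to relative errors `V ^ p β ^ (-1/4)` by the
Schwinger-Dyson equation of the vector field which scales the fluctuations of the curvature. The
upper bound: Schwinger-Dyson equations of the winding loops, maximum principle, log-convexity.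

Authors: helper630, helper897 (plan, statement, assembly), helper871, helper182, helper906
(library of the criterion), helper105, helper115, helper270, helper281, helper370, helper771,
helper863 (asymptotics of the partition functions), helper4, helper182, helper281, helper593,
helper370, helper863 (loop equations, upper bound).
-/

open MeasureTheory Filter Topology
open Run7.h4.YM Run7.h630.WL Run7.h630.QC

namespace Pool.Agent.Results.MP_7f377f_mp.TwistedMassGap

/-- `F` is gauge invariant -/
def IsGaugeInv {N l : ℕ} (F : (LinkZ l → SU N) → ℝ) : Prop :=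
  ∀ (h : SiteZ l → SU N) (V : LinkZ l → SU N),
    F (fun e => h e.2 * V e * (h (e.2 + dirZ e.1))⁻¹) = F V

/-- the correlations of some gauge invariant local observable of the time slice zero do not decay
like `exp (- m t)`, with any constant -/
def SlowerThan {N l : ℕ} [MeasurableSpace (SU N)] (ν : Measure (LinkZ l → SU N)) (m : ℝ) : Prop :=
  ∃ F : (LinkZ l → SU N) → ℝ, IsObs F ∧ IsGaugeInv F ∧
    ∀ K : ℝ, ∃ t : ℕ, 1 ≤ t ∧ K * Real.exp (-(m * t)) <
      |∫ V, F V * F (tshift t V) ∂ν - (∫ V, F V ∂ν) * ∫ V, F V ∂ν|

/-- the mass of the lightest gluon in the background of the flux, on the lattice -/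
noncomputable def M₀ (N l : ℕ) : ℝ := 2 * Real.arsinh (Real.sin (Real.pi / (l * N)))

/-- **The mass gap of the four-dimensional lattice Yang-Mills theory with 't Hooft flux, uniformly
in the lattice spacing.** Let `N ≥ 2`, `k` coprime to `N`. For every `ε > 0` there are `C`, `p` such
that for all `l ≥ 1` and `β ≥ C l ^ p` Wilson's `SU(N)` theory on `Z² x (Z/l)²` with the flux `k` has
a thermodynamic limit, its mass gap is at least `M₀ N l - ε / l` and at most `M₀ N l + ε / l`; and
`l M₀ N l → 2 π / N`. -/
theorem result (N k : ℕ) (hN : 2 ≤ N) (hk : Nat.Coprime k N) [MeasurableSpace (SU N)]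
    [BorelSpace (SU N)] (μ : Measure (SU N)) [IsProbabilityMeasure μ] [μ.IsHaarMeasure] :
    Tendsto (fun l : ℕ => l * M₀ N l) atTop (𝓝 (2 * Real.pi / N)) ∧
    ∀ ε : ℝ, 0 < ε → ∃ C p : ℕ, ∀ (l : ℕ) [NeZero l] (β : ℝ), C * (l : ℝ) ^ p ≤ β →
      (∃ ν : Measure (LinkZ l → SU N), IsLimit k μ β ν) ∧
      ∀ ν : Measure (LinkZ l → SU N), IsLimit k μ β ν →
        HasGap ν (M₀ N l - ε / l) ∧ SlowerThan ν (M₀ N l + ε / l) :=
  ⟨Pool.Agent.Run7.h897.QC.rate_lim N hN,
    fun ε hε => Pool.Agent.Run7.h897.QU.all N k hN hk μ ε hε⟩

end Pool.Agent.Results.MP_7f377f_mp.TwistedMassGap
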